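import Mathlib

open Filter Topology Finset

namespace Pool.Agent.Work.MP_03df5c_h61

/-- alternating sums of binomials -/
theorem alt_rec (M k : ℕ) : (∑ t ∈ range M, (-1 : ℤ) ^ t * ((t + 1).choose (k + 1) : ℤ)) =
    (∑ t ∈ range M, (-1 : ℤ) ^ t * (t.choose (k + 1) : ℤ)) + ∑ t ∈ range M, (-1 : ℤ) ^ t * (t.choose k : ℤ) := by
  rw [← Finset.sum_add_distrib]
  apply Finset.sum_congr rfl
  intro t _
  rw [Nat.choose_succ_succ]
  push_cast
  ring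

theorem alt_shift (M k : ℕ) : (∑ t ∈ range M, (-1 : ℤ) ^ t * ((t + 1).choose (k + 1) : ℤ)) =
    -(∑ t ∈ range M, (-1 : ℤ) ^ t * (t.choose (k + 1) : ℤ)) - (-1) ^ M * (M.choose (k + 1) : ℤ) := by
  induction M with
  | zero => simp
  | succ M ih =>
    rw [Finset.sum_range_succ, ih, Finset.sum_range_succ]
    ring

theorem alt_two (M k : ℕ) (hM : Odd M) : 2 * (∑ t ∈ range M, (-1 : ℤ) ^ t * (t.choose (k + 1) : ℤ)) =
    (M.choose (k + 1) : ℤ) - ∑ t ∈ range M, (-1 : ℤ) ^ t * (t.choose k : ℤ) := by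
  have h1 := alt_rec M k
  rw [alt_shift, hM.neg_one_pow] at h1
  linarith

theorem choose_tendsto (p : ℕ) [Fact p.Prime] (k : ℕ) :
    Tendsto (fun N : ℕ => (((p ^ N).choose (k + 1) : ℕ) : ℚ_[p])) atTop (𝓝 0) := by
  have h1 : ∀ N : ℕ, (((p ^ N).choose (k + 1) : ℕ) : ℚ_[p]) =
      ((p : ℚ_[p]) ^ N) * ((((p ^ N - 1).choose k : ℕ) : ℚ_[p]) / ((k + 1 : ℕ) : ℚ_[p])) := by
    intro N
    have hk : ((k + 1 : ℕ) : ℚ_[p]) ≠ 0 := by exact_mod_cast Nat.succ_ne_zero k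
    have hpN : 1 ≤ p ^ N := Nat.one_le_pow _ _ (Fact.out : p.Prime).pos
    have := Nat.add_one_mul_choose_eq (p ^ N - 1) k
    rw [Nat.sub_add_cancel hpN] at this
    rw [mul_div_assoc', eq_div_iff hk]
    rw [← Nat.cast_pow, ← Nat.cast_mul, ← Nat.cast_mul, this]
  rw [tendsto_zero_iff_norm_tendsto_zero]
  have h2 : ∀ N : ℕ, ‖(((p ^ N).choose (k + 1) : ℕ) : ℚ_[p])‖ ≤ (((p : ℝ)⁻¹) ^ N) * ‖((k + 1 : ℕ) : ℚ_[p])‖⁻¹ := by
    intro N
    rw [h1 N, norm_mul, norm_pow, norm_div, Padic.norm_p]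
    apply mul_le_mul_of_nonneg_left _ (by positivity)
    rw [div_eq_mul_inv]
    have := Padic.norm_int_le_one (p := p) ((p ^ N - 1).choose k)
    calc ‖(((p ^ N - 1).choose k : ℕ) : ℚ_[p])‖ * ‖((k + 1 : ℕ) : ℚ_[p])‖⁻¹ ≤ 1 * ‖((k + 1 : ℕ) : ℚ_[p])‖⁻¹ := by
          apply mul_le_mul_of_nonneg_right _ (by positivity)
          exact_mod_cast this
      _ = _ := one_mul _
  have h3 : Tendsto (fun N : ℕ => (((p : ℝ)⁻¹) ^ N) * ‖((k + 1 : ℕ) : ℚ_[p])‖⁻¹) atTop (𝓝 (0 * ‖((k + 1 : ℕ) : ℚ_[p])‖⁻¹)) := by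
    apply Tendsto.mul_const
    apply tendsto_pow_atTop_nhds_zero_of_lt_one (by positivity)
    have : (1 : ℝ) < p := by exact_mod_cast (Fact.out : p.Prime).one_lt
    exact inv_lt_one_of_one_lt₀ this
  rw [zero_mul] at h3
  exact squeeze_zero (fun _ => norm_nonneg _) h2 h3

/-- `∫ C(t, k) = (-1/2)^k` -/
theorem alt_tendsto (p : ℕ) [Fact p.Prime] (hp : p ≠ 2) (k : ℕ) :
    Tendsto (fun N : ℕ => ∑ t ∈ range (p ^ N), (-1 : ℚ_[p]) ^ t * ((t.choose k : ℕ) : ℚ_[p])) atTop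
      (𝓝 ((-(1 / 2)) ^ k)) := by
  have hodd : ∀ N : ℕ, Odd (p ^ N) := fun N => ((Fact.out : p.Prime).odd_of_ne_two hp).pow
  induction k with
  | zero =>
    have : ∀ N : ℕ, ∑ t ∈ range (p ^ N), (-1 : ℚ_[p]) ^ t * ((t.choose 0 : ℕ) : ℚ_[p]) = 1 := by
      intro N
      have : ∀ M : ℕ, Odd M → ∑ t ∈ range M, (-1 : ℚ_[p]) ^ t * ((t.choose 0 : ℕ) : ℚ_[p]) = 1 := by
        rintro M ⟨m, rfl⟩
        induction m with
        | zero => simp
        | succ m ih =>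
          rw [show 2 * (m + 1) + 1 = 2 * m + 1 + 1 + 1 by ring, Finset.sum_range_succ, Finset.sum_range_succ, ih]
          simp [pow_succ, pow_mul]
      exact this _ (hodd N)
    simp_rw [this]
    simp
  | succ k ih =>
    have h2 : (2 : ℚ_[p]) ≠ 0 := by norm_num
    have key : ∀ N : ℕ, ∑ t ∈ range (p ^ N), (-1 : ℚ_[p]) ^ t * ((t.choose (k + 1) : ℕ) : ℚ_[p]) =
        (1 / 2) * ((((p ^ N).choose (k + 1) : ℕ) : ℚ_[p]) -
          ∑ t ∈ range (p ^ N), (-1 : ℚ_[p]) ^ t * ((t.choose k : ℕ) : ℚ_[p])) := by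
      intro N
      have := congrArg (fun z : ℤ => (z : ℚ_[p])) (alt_two (p ^ N) k (hodd N))
      push_cast at this
      have h3 : ((p ^ N).choose (k + 1) : ℚ_[p]) = (((p ^ N).choose (k + 1) : ℕ) : ℚ_[p]) := rfl
      rw [← this]
      ring
    simp_rw [key]
    have h5 := ((choose_tendsto p k).sub ih).const_mul (1 / 2 : ℚ_[p])
    rw [show (1 / 2 : ℚ_[p]) * (0 - (-(1 / 2)) ^ k) = (-(1 / 2)) ^ (k + 1) by ring] at h5
    exact h5

/-- `∫ C(t + K, K) = 2^(-K)` -/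
theorem alt_add_tendsto (p : ℕ) [Fact p.Prime] (hp : p ≠ 2) (K : ℕ) :
    Tendsto (fun N : ℕ => ∑ t ∈ range (p ^ N), (-1 : ℚ_[p]) ^ t * (((t + K).choose K : ℕ) : ℚ_[p])) atTop
      (𝓝 ((1 / 2) ^ K)) := by
  have h1 : ∀ t : ℕ, (((t + K).choose K : ℕ) : ℚ_[p]) =
      ∑ j ∈ range (K + 1), ((K.choose j : ℕ) : ℚ_[p]) * ((t.choose j : ℕ) : ℚ_[p]) := by
    intro t
    rw [Nat.add_choose_eq, Finset.Nat.sum_antidiagonal_eq_sum_range_succ (fun i j => t.choose i * K.choose j)]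
    push_cast
    apply Finset.sum_congr rfl
    intro j hj
    rw [Finset.mem_range] at hj
    rw [Nat.choose_symm (by omega : j ≤ K)]
    ring
  have h2 : ∀ N : ℕ, ∑ t ∈ range (p ^ N), (-1 : ℚ_[p]) ^ t * (((t + K).choose K : ℕ) : ℚ_[p]) =
      ∑ j ∈ range (K + 1), ((K.choose j : ℕ) : ℚ_[p]) *
        ∑ t ∈ range (p ^ N), (-1 : ℚ_[p]) ^ t * ((t.choose j : ℕ) : ℚ_[p]) := by
    intro N
    simp_rw [h1, Finset.mul_sum]
    rw [Finset.sum_comm]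
    apply Finset.sum_congr rfl
    intro j _
    apply Finset.sum_congr rfl
    intro t _
    ring
  simp_rw [h2]
  have h3 : ((1 : ℚ_[p]) / 2) ^ K = ∑ j ∈ range (K + 1), ((K.choose j : ℕ) : ℚ_[p]) * (-(1 / 2)) ^ j := by
    have := add_pow (-(1 / 2) : ℚ_[p]) 1 K
    rw [show (-(1 / 2) + 1 : ℚ_[p]) = 1 / 2 by norm_num] at this
    rw [this]
    apply Finset.sum_congr rfl
    intro j _
    ring
  rw [h3]
  apply tendsto_finsetSum
  intro j _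
  exact (alt_tendsto p hp j).const_mul _

end Pool.Agent.Work.MP_03df5c_h61
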