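import Pool.Agent.Work.MP_03df5c_h61.Ferm

open Filter Topology Finset

namespace Pool.Agent.Work.MP_03df5c_h61

variable {p : ℕ} [Fact p.Prime]

/-- the alternating sums `∑_{t < p^N} (-1)^t f(t)` -/
noncomputable def altS (f : ℕ → ℚ_[p]) (N : ℕ) : ℚ_[p] := ∑ t ∈ range (p ^ N), (-1 : ℚ_[p]) ^ t * f t

/-- the fermionic integral -/
noncomputable def ferm (f : ℕ → ℚ_[p]) : ℚ_[p] := limUnder atTop (altS f)

theorem norm_sum_le_of {ι : Type*} (s : Finset ι) (f : ι → ℚ_[p]) {C : ℝ} (hC : 0 ≤ C) (h : ∀ i ∈ s, ‖f i‖ ≤ C) :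
    ‖∑ i ∈ s, f i‖ ≤ C := by
  classical
  induction s using Finset.induction_on with
  | empty => simpa using hC
  | insert a s ha ih =>
    rw [Finset.sum_insert ha]
    refine (Padic.nonarchimedean _ _).trans ?_
    exact max_le (h a (Finset.mem_insert_self _ _)) (ih fun i hi => h i (Finset.mem_insert_of_mem hi))

/-- a sum over `range (p * M)` in blocks -/
theorem sum_blocks (M : ℕ) (f : ℕ → ℚ_[p]) : ∀ q : ℕ, ∑ t ∈ range (q * M), f t = ∑ t ∈ range M, ∑ j ∈ range q, f (t + j * M) := by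
  intro q
  induction q with
  | zero => simp
  | succ q ih =>
    rw [Nat.succ_mul, Finset.sum_range_add, ih, ← Finset.sum_add_distrib]
    apply Finset.sum_congr rfl
    intro t _
    rw [Finset.sum_range_succ, add_comm (q * M) t]

theorem alt_ones (q : ℕ) (hq : Odd q) : ∑ j ∈ range q, (-1 : ℚ_[p]) ^ j = 1 := by
  obtain ⟨m, rfl⟩ := hq
  induction m with
  | zero => simp
  | succ m ih =>
    rw [show 2 * (m + 1) + 1 = 2 * m + 1 + 1 + 1 by ring, Finset.sum_range_succ, Finset.sum_range_succ, ih]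
    simp [pow_succ, pow_mul]

theorem altS_step (hp : p ≠ 2) (f : ℕ → ℚ_[p]) {N : ℕ} {C : ℝ} (hC : 0 ≤ C)
    (h : ∀ t < p ^ N, ∀ j < p, ‖f (t + j * p ^ N) - f t‖ ≤ C) : ‖altS f (N + 1) - altS f N‖ ≤ C := by
  have hodd : Odd (p ^ N) := ((Fact.out : p.Prime).odd_of_ne_two hp).pow
  have hoddp : Odd p := (Fact.out : p.Prime).odd_of_ne_two hp
  have e : altS f (N + 1) - altS f N =
      ∑ t ∈ range (p ^ N), ∑ j ∈ range p, (-1 : ℚ_[p]) ^ t * ((-1) ^ j * (f (t + j * p ^ N) - f t)) := by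
    unfold altS
    rw [pow_succ, mul_comm (p ^ N) p, sum_blocks (p ^ N) (fun t => (-1 : ℚ_[p]) ^ t * f t) p,
      ← Finset.sum_sub_distrib]
    apply Finset.sum_congr rfl
    intro t _
    have h1 : ∑ j ∈ range p, (-1 : ℚ_[p]) ^ t * ((-1) ^ j * f t) = (-1 : ℚ_[p]) ^ t * f t := by
      rw [← Finset.mul_sum, ← Finset.sum_mul, alt_ones p hoddp, one_mul]
    rw [← h1, ← Finset.sum_sub_distrib]
    apply Finset.sum_congr rfl
    intro j _
    rw [pow_add, mul_comm j, pow_mul, hodd.neg_one_pow]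
    ring
  rw [e]
  apply norm_sum_le_of _ _ hC
  intro t ht
  apply norm_sum_le_of _ _ hC
  intro j hj
  rw [norm_mul, norm_mul, norm_pow, norm_pow, norm_neg, norm_one, one_pow, one_pow, one_mul, one_mul]
  exact h t (Finset.mem_range.1 ht) j (Finset.mem_range.1 hj)

/-- uniform continuity in the form used here -/
def UC (f : ℕ → ℚ_[p]) : Prop := ∃ c : ℕ → ℝ, (∀ N, 0 ≤ c N) ∧ Tendsto c atTop (𝓝 0) ∧
  ∀ N t j, ‖f (t + j * p ^ N) - f t‖ ≤ c N

theorem altS_cauchy (hp : p ≠ 2) {f : ℕ → ℚ_[p]} (hf : UC f) : CauchySeq (altS f) := by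
  obtain ⟨c, hc0, hc, h⟩ := hf
  have h1 : Tendsto (fun N => altS f (N + 1) - altS f N) atTop (𝓝 0) := by
    rw [tendsto_zero_iff_norm_tendsto_zero]
    exact squeeze_zero (fun _ => norm_nonneg _) (fun N => altS_step hp f (hc0 N) fun t _ j _ => h N t j) hc
  exact NonarchimedeanAddGroup.cauchySeq_of_tendsto_sub_nhds_zero h1

theorem altS_tendsto (hp : p ≠ 2) {f : ℕ → ℚ_[p]} (hf : UC f) : Tendsto (altS f) atTop (𝓝 (ferm f)) := by
  obtain ⟨x, hx⟩ := cauchySeq_tendsto_of_complete (altS_cauchy hp hf)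
  unfold ferm
  rw [hx.limUnder_eq]
  exact hx

theorem UC.add {f g : ℕ → ℚ_[p]} (hf : UC f) (hg : UC g) : UC (fun t => f t + g t) := by
  obtain ⟨c, hc0, hc, h⟩ := hf
  obtain ⟨d, hd0, hd, h'⟩ := hg
  refine ⟨fun N => c N + d N, fun N => add_nonneg (hc0 N) (hd0 N), by simpa using hc.add hd, ?_⟩
  intro N t j
  rw [show f (t + j * p ^ N) + g (t + j * p ^ N) - (f t + g t) =
    (f (t + j * p ^ N) - f t) + (g (t + j * p ^ N) - g t) by ring]
  exact (norm_add_le _ _).trans (add_le_add (h N t j) (h' N t j))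

theorem UC.const_mul {f : ℕ → ℚ_[p]} (hf : UC f) (a : ℚ_[p]) : UC (fun t => a * f t) := by
  obtain ⟨c, hc0, hc, h⟩ := hf
  refine ⟨fun N => ‖a‖ * c N, fun N => mul_nonneg (norm_nonneg _) (hc0 N), by simpa using hc.const_mul ‖a‖, ?_⟩
  intro N t j
  rw [← mul_sub, norm_mul]
  exact mul_le_mul_of_nonneg_left (h N t j) (norm_nonneg _)

theorem ferm_add (hp : p ≠ 2) {f g : ℕ → ℚ_[p]} (hf : UC f) (hg : UC g) :
    ferm (fun t => f t + g t) = ferm f + ferm g := by
  refine tendsto_nhds_unique (altS_tendsto hp (hf.add hg)) ?_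
  have := (altS_tendsto hp hf).add (altS_tendsto hp hg)
  refine this.congr fun N => ?_
  unfold altS
  rw [← Finset.sum_add_distrib]
  apply Finset.sum_congr rfl
  intro t _
  ring

theorem ferm_const_mul (hp : p ≠ 2) {f : ℕ → ℚ_[p]} (hf : UC f) (a : ℚ_[p]) :
    ferm (fun t => a * f t) = a * ferm f := by
  refine tendsto_nhds_unique (altS_tendsto hp (hf.const_mul a)) ?_
  have := (altS_tendsto hp hf).const_mul a
  refine this.congr fun N => ?_
  unfold altS
  rw [Finset.mul_sum]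
  apply Finset.sum_congr rfl
  intro t _
  ring

/-- shift: `∫ f(t+1) = -∫ f(t) + 2 f(0)` -/
theorem ferm_shift (hp : p ≠ 2) {f : ℕ → ℚ_[p]} (hf : UC f) (hf1 : UC (fun t => f (t + 1))) :
    ferm (fun t => f (t + 1)) = -ferm f + 2 * f 0 := by
  obtain ⟨c, hc0, hc, h⟩ := hf
  have hf : UC f := ⟨c, hc0, hc, h⟩
  refine tendsto_nhds_unique (altS_tendsto hp hf1) ?_
  have e : ∀ N, altS (fun t => f (t + 1)) N = -altS f N + f 0 + f (p ^ N) := by
    intro N
    have hodd : Odd (p ^ N) := ((Fact.out : p.Prime).odd_of_ne_two hp).pow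
    have key : ∀ M : ℕ, ∑ t ∈ range M, (-1 : ℚ_[p]) ^ t * f (t + 1) =
        -(∑ t ∈ range M, (-1 : ℚ_[p]) ^ t * f t) + f 0 - (-1) ^ M * f M := by
      intro M
      induction M with
      | zero => simp
      | succ M ih =>
        rw [Finset.sum_range_succ, ih, Finset.sum_range_succ]
        ring
    unfold altS
    rw [key, hodd.neg_one_pow]
    ring
  have h1 : Tendsto (fun N => f (p ^ N)) atTop (𝓝 (f 0)) := by
    rw [tendsto_iff_norm_sub_tendsto_zero]
    refine squeeze_zero (fun _ => norm_nonneg _) (fun N => ?_) hc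
    have := h N 0 1
    simpa using this
  have h2 := ((altS_tendsto hp hf).neg.add_const (f 0)).add h1
  rw [show -ferm f + 2 * f 0 = -ferm f + f 0 + f 0 by ring]
  exact h2.congr fun N => (e N).symm

end Pool.Agent.Work.MP_03df5c_h61
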