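import Pool.Agent.Work.MP_03df5c_h61.Ferm2
import Pool.Agent.Work.MP_03df5c_h91.Interp

open Filter Topology Finset

namespace Pool.Agent.Work.MP_03df5c_h61

open Pool.Agent.Work.MP_03df5c_h91

variable {p : ℕ} [hp : Fact p.Prime]

/-- the units modulo `p^N` -/
def UU (p N : ℕ) : Finset ℕ := (range (p ^ N)).filter (fun a => ¬ p ∣ a)

theorem UU_perm {g : ℕ} (hg : ¬ p ∣ g) (N : ℕ) (f : ℕ → ℚ_[p]) :
    ∑ a ∈ UU p N, f (g * a % p ^ N) = ∑ a ∈ UU p N, f a := by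
  rcases Nat.eq_zero_or_pos N with rfl | hN
  · simp [UU, Finset.filter_singleton]
  have hpN : 0 < p ^ N := pow_pos hp.out.pos N
  have hinj : Set.InjOn (fun a => g * a % p ^ N) (UU p N : Set ℕ) := by
    intro a ha b hb hab
    replace ha := Finset.mem_filter.1 (Finset.mem_coe.1 ha)
    replace hb := Finset.mem_filter.1 (Finset.mem_coe.1 hb)
    simp only [mem_range] at ha hb
    have h1 : g * a ≡ g * b [MOD p ^ N] := hab
    have hcop : Nat.Coprime (p ^ N) g :=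
      Nat.Coprime.pow_left N ((Nat.Prime.coprime_iff_not_dvd hp.out).2 hg)
    have h2 : a ≡ b [MOD p ^ N] := Nat.ModEq.cancel_left_of_coprime hcop h1
    exact Nat.ModEq.eq_of_lt_of_lt h2 ha.1 hb.1
  have hmaps : ∀ a ∈ UU p N, g * a % p ^ N ∈ UU p N := by
    intro a ha
    simp only [UU, mem_filter, mem_range] at ha ⊢
    refine ⟨Nat.mod_lt _ hpN, not_dvd_mod hN.ne' ?_⟩
    exact hp.out.not_dvd_mul hg ha.2
  have himg : (UU p N).image (fun a => g * a % p ^ N) = UU p N := by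
    apply Finset.eq_of_subset_of_card_le
    · intro x hx
      obtain ⟨a, ha, rfl⟩ := mem_image.1 hx
      exact hmaps a ha
    · rw [card_image_of_injOn hinj]
  conv_rhs => rw [← himg]
  rw [sum_image (fun a ha b hb h => hinj ha hb h)]

/-- the alternating sum over the units -/
noncomputable def altU (p : ℕ) [Fact p.Prime] (k N : ℕ) : ℚ_[p] :=
  ∑ a ∈ UU p N, (-1 : ℚ_[p]) ^ a * ((a : ℚ_[p]) ^ k)⁻¹

/-- half sums -/
noncomputable def halfU (p : ℕ) [Fact p.Prime] (k N : ℕ) : ℚ_[p] :=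
  ∑ a ∈ UU p N, ((2 * a / p ^ N : ℕ) : ℚ_[p]) * ((a : ℚ_[p]) ^ k)⁻¹

theorem two_norm (h2 : p ≠ 2) : ‖(2 : ℚ_[p])‖ = 1 := by
  have : ¬ p ∣ 2 := fun h => h2 ((Nat.prime_dvd_prime_iff_eq hp.out Nat.prime_two).1 h)
  have := norm_nat_eq_one (p := p) this
  exact_mod_cast this

theorem step1 (h2 : p ≠ 2) (r N : ℕ) :
    ‖(1 - ((2 : ℚ_[p]) ^ r)⁻¹) * invPowSum p r N - r * (p : ℚ_[p]) ^ N * ((2 : ℚ_[p]) ^ (r + 1))⁻¹ * halfU p (r + 1) N‖ ≤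
      ((p : ℝ) ^ (-(N : ℤ))) ^ 2 := by
  have hp2 : ¬ p ∣ 2 := fun h => h2 ((Nat.prime_dvd_prime_iff_eq hp.out Nat.prime_two).1 h)
  have e : (1 - ((2 : ℚ_[p]) ^ r)⁻¹) * invPowSum p r N - r * (p : ℚ_[p]) ^ N * ((2 : ℚ_[p]) ^ (r + 1))⁻¹ * halfU p (r + 1) N =
      ∑ a ∈ UU p N, (((((2 * a : ℕ) : ℚ_[p]) + -((p : ℚ_[p]) ^ N * ((2 * a / p ^ N : ℕ) : ℚ_[p]))) ^ r)⁻¹ -
        (((2 * a : ℕ) : ℚ_[p]) ^ r)⁻¹ +
        r * -((p : ℚ_[p]) ^ N * ((2 * a / p ^ N : ℕ) : ℚ_[p])) * (((2 * a : ℕ) : ℚ_[p]) ^ (r + 1))⁻¹) := by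
    rw [Finset.sum_add_distrib, Finset.sum_sub_distrib]
    have a1 : ∑ a ∈ UU p N, ((((2 * a : ℕ) : ℚ_[p]) + -((p : ℚ_[p]) ^ N * ((2 * a / p ^ N : ℕ) : ℚ_[p]))) ^ r)⁻¹ =
        invPowSum p r N := by
      rw [show invPowSum p r N = ∑ a ∈ UU p N, ((a : ℚ_[p]) ^ r)⁻¹ from rfl,
        ← UU_perm hp2 N (fun a => ((a : ℚ_[p]) ^ r)⁻¹)]
      refine Finset.sum_congr rfl fun a _ => ?_
      congr 2
      have h := Nat.mod_add_div (2 * a) (p ^ N)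
      have h3 : (((2 * a % p ^ N + p ^ N * (2 * a / p ^ N)) : ℕ) : ℚ_[p]) = ((2 * a : ℕ) : ℚ_[p]) := by rw [h]
      rw [← h3]; push_cast; ring
    have a2 : ∑ a ∈ UU p N, (((2 * a : ℕ) : ℚ_[p]) ^ r)⁻¹ = ((2 : ℚ_[p]) ^ r)⁻¹ * invPowSum p r N := by
      rw [show invPowSum p r N = ∑ a ∈ UU p N, ((a : ℚ_[p]) ^ r)⁻¹ from rfl, Finset.mul_sum]
      refine Finset.sum_congr rfl fun a _ => ?_
      push_cast
      rw [mul_pow, mul_inv]
    have a3 : ∑ a ∈ UU p N, (r : ℚ_[p]) * -((p : ℚ_[p]) ^ N * ((2 * a / p ^ N : ℕ) : ℚ_[p])) * (((2 * a : ℕ) : ℚ_[p]) ^ (r + 1))⁻¹ =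
        -(r * (p : ℚ_[p]) ^ N * ((2 : ℚ_[p]) ^ (r + 1))⁻¹ * halfU p (r + 1) N) := by
      unfold halfU
      rw [Finset.mul_sum, ← Finset.sum_neg_distrib]
      refine Finset.sum_congr rfl fun a _ => ?_
      push_cast
      rw [mul_pow, mul_inv]
      ring
    rw [a1, a2, a3]
    ring
  rw [e]
  refine norm_sum_le_of_le _ _ (by positivity) ?_
  intro a ha
  simp only [UU, mem_filter, mem_range] at ha
  have hN : N ≠ 0 := by
    rintro rfl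
    have : a = 0 := by simpa using ha.1
    exact ha.2 (this ▸ dvd_zero p)
  have hga : ¬ p ∣ 2 * a := hp.out.not_dvd_mul hp2 ha.2
  have hy : ‖-((p : ℚ_[p]) ^ N * ((2 * a / p ^ N : ℕ) : ℚ_[p]))‖ ≤ (p : ℝ) ^ (-(N : ℤ)) := by
    rw [norm_neg, norm_mul, Padic.norm_p_pow]
    exact mul_le_of_le_one_right (by positivity) (norm_natCast_le_one _)
  have hp1 : (1 : ℝ) ≤ p := by exact_mod_cast hp.out.one_lt.le
  have hle1 : (p : ℝ) ^ (-(N : ℤ)) ≤ 1 := by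
    rw [zpow_neg, zpow_natCast]
    exact inv_le_one_of_one_le₀ (one_le_pow₀ hp1)
  have hxy : ‖((2 * a : ℕ) : ℚ_[p]) + -((p : ℚ_[p]) ^ N * ((2 * a / p ^ N : ℕ) : ℚ_[p]))‖ = 1 := by
    have h := Nat.mod_add_div (2 * a) (p ^ N)
    have h3 : ((2 * a : ℕ) : ℚ_[p]) + -((p : ℚ_[p]) ^ N * ((2 * a / p ^ N : ℕ) : ℚ_[p])) = ((2 * a % p ^ N : ℕ) : ℚ_[p]) := by
      have h3 : (((2 * a % p ^ N + p ^ N * (2 * a / p ^ N)) : ℕ) : ℚ_[p]) = ((2 * a : ℕ) : ℚ_[p]) := by rw [h]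
      rw [← h3]; push_cast; ring
    rw [h3]
    exact norm_nat_eq_one (not_dvd_mod hN hga)
  refine (norm_inv_expand_le (norm_nat_eq_one hga) hxy (hy.trans hle1) r).trans ?_
  exact pow_le_pow_left₀ (norm_nonneg _) hy 2

omit hp in
theorem div_le_one' {a N : ℕ} (ha : a < p ^ N) : 2 * a / p ^ N ≤ 1 := by
  have : 2 * a / p ^ N < 2 := by
    apply Nat.div_lt_of_lt_mul
    omega
  omega

theorem step2 (h2 : p ≠ 2) (k N : ℕ) :
    ‖altU p k N - ((2 : ℚ_[p]) ^ k)⁻¹ * (invPowSum p k N - 2 * halfU p k N)‖ ≤ (p : ℝ) ^ (-(N : ℤ)) := by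
  have hp2 : ¬ p ∣ 2 := fun h => h2 ((Nat.prime_dvd_prime_iff_eq hp.out Nat.prime_two).1 h)
  have hodd : Odd (p ^ N) := (hp.out.odd_of_ne_two h2).pow
  have e : altU p k N - ((2 : ℚ_[p]) ^ k)⁻¹ * (invPowSum p k N - 2 * halfU p k N) =
      ∑ a ∈ UU p N, ((-1 : ℚ_[p]) ^ (2 * a % p ^ N) * (((2 * a % p ^ N : ℕ) : ℚ_[p]) ^ k)⁻¹ -
        (1 - 2 * ((2 * a / p ^ N : ℕ) : ℚ_[p])) * (((2 * a : ℕ) : ℚ_[p]) ^ k)⁻¹) := by
    rw [Finset.sum_sub_distrib, UU_perm hp2 N (fun a => (-1 : ℚ_[p]) ^ a * ((a : ℚ_[p]) ^ k)⁻¹)]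
    congr 1
    rw [show invPowSum p k N = ∑ a ∈ UU p N, ((a : ℚ_[p]) ^ k)⁻¹ from rfl]
    unfold halfU
    rw [Finset.mul_sum, ← Finset.sum_sub_distrib, Finset.mul_sum]
    refine Finset.sum_congr rfl fun a _ => ?_
    push_cast
    rw [mul_pow, mul_inv]
    ring
  rw [e]
  refine norm_sum_le_of_le _ _ (by positivity) ?_
  intro a ha
  simp only [UU, mem_filter, mem_range] at ha
  have hN : N ≠ 0 := by
    rintro rfl
    have : a = 0 := by simpa using ha.1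
    exact ha.2 (this ▸ dvd_zero p)
  have hga : ¬ p ∣ 2 * a := hp.out.not_dvd_mul hp2 ha.2
  have hsign : (-1 : ℚ_[p]) ^ (2 * a % p ^ N) = 1 - 2 * ((2 * a / p ^ N : ℕ) : ℚ_[p]) := by
    have h := Nat.mod_add_div (2 * a) (p ^ N)
    have h1 : 2 * a / p ^ N ≤ 1 := div_le_one' ha.1
    have h0 : (-1 : ℚ_[p]) ^ (2 * a) = 1 := by rw [pow_mul]; simp
    obtain h3 | h3 := Nat.le_one_iff_eq_zero_or_eq_one.1 h1
    · rw [h3, mul_zero, add_zero] at h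
      rw [h3, h, h0]
      simp
    · rw [h3] at h ⊢
      rw [← h, pow_add, mul_one, hodd.neg_one_pow] at h0
      push_cast
      linear_combination -h0
  rw [hsign, ← mul_sub, norm_mul]
  have hs1 : ‖(1 - 2 * ((2 * a / p ^ N : ℕ) : ℚ_[p]))‖ ≤ 1 := by
    rw [← hsign, norm_pow, norm_neg, norm_one, one_pow]
  refine (mul_le_of_le_one_left (norm_nonneg _) hs1).trans ?_
  refine (norm_inv_pow_sub_le (norm_nat_eq_one (not_dvd_mod hN hga)) (norm_nat_eq_one hga) k).trans ?_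
  rw [norm_sub_rev]
  exact norm_sub_mod _ _

theorem tendsto_pN : Tendsto (fun N : ℕ => (p : ℝ) ^ (-(N : ℤ))) atTop (𝓝 0) := by
  have h1 : (1 : ℝ) < p := by exact_mod_cast hp.out.one_lt
  have := tendsto_pow_atTop_nhds_zero_of_lt_one (r := ((p : ℝ))⁻¹) (by positivity) (inv_lt_one_of_one_lt₀ h1)
  refine this.congr fun N => ?_
  rw [zpow_neg, zpow_natCast, inv_pow]

/-- **the Kubota-Leopoldt value as a fermionic integral** -/
theorem tendsto_altU (h2 : p ≠ 2) {k : ℕ} (hk : 2 ≤ k) :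
    Tendsto (altU p k) atTop (𝓝 (2 * (((2 : ℚ_[p]) ^ (k - 1))⁻¹ - 1) * kubotaLeopoldt p k)) := by
  obtain ⟨r, rfl⟩ : ∃ r, k = r + 1 := ⟨k - 1, by omega⟩
  have hr : r ≠ 0 := by omega
  have hrp : (r : ℚ_[p]) ≠ 0 := by exact_mod_cast hr
  have h20 : (2 : ℚ_[p]) ≠ 0 := two_ne_zero
  have hp0 : (p : ℚ_[p]) ≠ 0 := by exact_mod_cast hp.out.ne_zero
  -- halfU
  have hH : Tendsto (halfU p (r + 1)) atTop
      (𝓝 (((2 : ℚ_[p]) ^ (r + 1)) * (r : ℚ_[p])⁻¹ * ((1 - ((2 : ℚ_[p]) ^ r)⁻¹) * limUnder atTop (klSum p (r + 1))))) := by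
    have hK := tendsto_klSum p (k := r + 1) hk
    have hd : Tendsto (fun N => (1 - ((2 : ℚ_[p]) ^ r)⁻¹) * klSum p (r + 1) N -
        r * ((2 : ℚ_[p]) ^ (r + 1))⁻¹ * halfU p (r + 1) N) atTop (𝓝 0) := by
      rw [tendsto_zero_iff_norm_tendsto_zero]
      refine squeeze_zero (fun _ => norm_nonneg _) (fun N => ?_) (tendsto_pN (p := p))
      have h1 := step1 (p := p) h2 r N
      have hpN : (p : ℚ_[p]) ^ N ≠ 0 := pow_ne_zero _ hp0
      have e : (1 - ((2 : ℚ_[p]) ^ r)⁻¹) * klSum p (r + 1) N - r * ((2 : ℚ_[p]) ^ (r + 1))⁻¹ * halfU p (r + 1) N =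
          ((p : ℚ_[p]) ^ N)⁻¹ * ((1 - ((2 : ℚ_[p]) ^ r)⁻¹) * invPowSum p r N -
            r * (p : ℚ_[p]) ^ N * ((2 : ℚ_[p]) ^ (r + 1))⁻¹ * halfU p (r + 1) N) := by
        unfold klSum
        rw [Nat.add_sub_cancel]
        field_simp
      rw [e, norm_mul, norm_inv, Padic.norm_p_pow]
      have hpos : (0 : ℝ) < (p : ℝ) ^ (-(N : ℤ)) := by
        have : (0 : ℝ) < p := by exact_mod_cast hp.out.pos
        positivity
      rw [inv_mul_le_iff₀ hpos]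
      calc _ ≤ _ := h1
        _ = _ := by ring
    have h3 := ((hK.const_mul (1 - ((2 : ℚ_[p]) ^ r)⁻¹)).sub hd).const_mul (((2 : ℚ_[p]) ^ (r + 1)) * (r : ℚ_[p])⁻¹)
    rw [sub_zero] at h3
    refine h3.congr fun N => ?_
    field_simp
    ring
  have hI : Tendsto (invPowSum p (r + 1)) atTop (𝓝 0) := by
    obtain ⟨C, hC, h⟩ := exists_norm_invPowSum_le p (r := r + 1) (by omega)
    rw [tendsto_zero_iff_norm_tendsto_zero]
    have := (tendsto_pN (p := p)).const_mul C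
    rw [mul_zero] at this
    exact squeeze_zero (fun _ => norm_nonneg _) h this
  have hd2 : Tendsto (fun N => altU p (r + 1) N - ((2 : ℚ_[p]) ^ (r + 1))⁻¹ * (invPowSum p (r + 1) N - 2 * halfU p (r + 1) N))
      atTop (𝓝 0) := by
    rw [tendsto_zero_iff_norm_tendsto_zero]
    exact squeeze_zero (fun _ => norm_nonneg _) (fun N => step2 h2 (r + 1) N) (tendsto_pN (p := p))
  have h5 := hd2.add ((hI.sub (hH.const_mul 2)).const_mul (((2 : ℚ_[p]) ^ (r + 1))⁻¹))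
  have hk2 := kubotaLeopoldt_eq (p := p) (k := r + 1) hk
  have e : (0 : ℚ_[p]) + ((2 : ℚ_[p]) ^ (r + 1))⁻¹ * (0 - 2 * ((2 : ℚ_[p]) ^ (r + 1) * (r : ℚ_[p])⁻¹ *
      ((1 - ((2 : ℚ_[p]) ^ r)⁻¹) * limUnder atTop (klSum p (r + 1))))) =
      2 * (((2 : ℚ_[p]) ^ (r + 1 - 1))⁻¹ - 1) * kubotaLeopoldt p (r + 1) := by
    rw [hk2, Nat.add_sub_cancel]
    push_cast
    rw [add_sub_cancel_right]
    field_simp
    ring
  rw [e] at h5
  refine h5.congr fun N => ?_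
  ring

end Pool.Agent.Work.MP_03df5c_h61
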