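import Pool.Agent.Work.MP_03df5c_h61.Ferm3

open Filter Topology Finset

namespace Pool.Agent.Work.MP_03df5c_h61

open Pool.Agent.Work.MP_03df5c_h91

variable {p : ℕ} [hp : Fact p.Prime]

/-- Lipschitz functions -/
def Lip (f : ℕ → ℚ_[p]) : Prop := ∃ C : ℝ, 0 ≤ C ∧ ∀ N t : ℕ, ‖f (t + p ^ N) - f t‖ ≤ C * (p : ℝ) ^ (-(N : ℤ))

theorem pN_pos (N : ℕ) : (0 : ℝ) < (p : ℝ) ^ (-(N : ℤ)) := by
  have : (0 : ℝ) < p := by exact_mod_cast hp.out.pos
  positivity

theorem pN_le_one (N : ℕ) : (p : ℝ) ^ (-(N : ℤ)) ≤ 1 := by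
  have hp1 : (1 : ℝ) ≤ p := by exact_mod_cast hp.out.one_lt.le
  rw [zpow_neg, zpow_natCast]
  exact inv_le_one_of_one_le₀ (one_le_pow₀ hp1)

theorem lip_mul {f : ℕ → ℚ_[p]} {C : ℝ} (hC : 0 ≤ C) (h : ∀ N t : ℕ, ‖f (t + p ^ N) - f t‖ ≤ C * (p : ℝ) ^ (-(N : ℤ)))
    (N t j : ℕ) : ‖f (t + j * p ^ N) - f t‖ ≤ C * (p : ℝ) ^ (-(N : ℤ)) := by
  induction j with
  | zero =>
    simp only [zero_mul, add_zero, sub_self, norm_zero]
    exact mul_nonneg hC (pN_pos N).le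
  | succ j ih =>
    rw [show f (t + (j + 1) * p ^ N) - f t = (f (t + j * p ^ N + p ^ N) - f (t + j * p ^ N)) + (f (t + j * p ^ N) - f t) by
      rw [show t + (j + 1) * p ^ N = t + j * p ^ N + p ^ N by ring]; ring]
    exact norm_add_le_of_le (h N _) ih

theorem Lip.uc {f : ℕ → ℚ_[p]} (h : Lip f) : UC f := by
  obtain ⟨C, hC, h⟩ := h
  refine ⟨fun N => C * (p : ℝ) ^ (-(N : ℤ)), fun N => mul_nonneg hC (pN_pos N).le, ?_, lip_mul hC h⟩
  have := (tendsto_pN (p := p)).const_mul C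
  rwa [mul_zero] at this

theorem Lip.bdd {f : ℕ → ℚ_[p]} (h : Lip f) : ∃ B : ℝ, 0 ≤ B ∧ ∀ t, ‖f t‖ ≤ B := by
  obtain ⟨C, hC, h⟩ := h
  refine ⟨max ‖f 0‖ C, le_max_of_le_right hC, ?_⟩
  intro t
  have h1 := lip_mul hC h 0 0 t
  simp only [pow_zero, mul_one, zero_add, Nat.cast_zero, neg_zero, zpow_zero] at h1
  rw [show f t = (f t - f 0) + f 0 by ring]
  exact norm_add_le_of_le (h1.trans (le_max_right _ _)) (le_max_left _ _)

theorem Lip.const (a : ℚ_[p]) : Lip (fun _ => a) := ⟨0, le_rfl, by intro N t; simp⟩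

theorem Lip.cast : Lip (fun t : ℕ => (t : ℚ_[p])) := by
  refine ⟨1, zero_le_one, ?_⟩
  intro N t
  push_cast
  rw [add_sub_cancel_left, Padic.norm_p_pow, one_mul]

theorem Lip.add {f g : ℕ → ℚ_[p]} (hf : Lip f) (hg : Lip g) : Lip (fun t => f t + g t) := by
  obtain ⟨C, hC, h⟩ := hf
  obtain ⟨D, hD, h'⟩ := hg
  refine ⟨C + D, add_nonneg hC hD, ?_⟩
  intro N t
  rw [show f (t + p ^ N) + g (t + p ^ N) - (f t + g t) = (f (t + p ^ N) - f t) + (g (t + p ^ N) - g t) by ring, add_mul]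
  exact (norm_add_le _ _).trans (add_le_add (h N t) (h' N t))

theorem Lip.mul {f g : ℕ → ℚ_[p]} (hf : Lip f) (hg : Lip g) : Lip (fun t => f t * g t) := by
  obtain ⟨A, hA, a⟩ := hf.bdd
  obtain ⟨B, hB, b⟩ := hg.bdd
  obtain ⟨C, hC, h⟩ := hf
  obtain ⟨D, hD, h'⟩ := hg
  refine ⟨A * D + C * B, by positivity, ?_⟩
  intro N t
  rw [show f (t + p ^ N) * g (t + p ^ N) - f t * g t = f (t + p ^ N) * (g (t + p ^ N) - g t) + (f (t + p ^ N) - f t) * g t by ring,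
    add_mul]
  refine (norm_add_le _ _).trans (add_le_add ?_ ?_)
  · rw [norm_mul, mul_assoc]
    exact mul_le_mul (a _) (h' N t) (norm_nonneg _) hA
  · rw [norm_mul, mul_right_comm]
    exact mul_le_mul (h N t) (b _) (norm_nonneg _) (mul_nonneg hC (pN_pos N).le)

theorem Lip.const_mul {f : ℕ → ℚ_[p]} (hf : Lip f) (a : ℚ_[p]) : Lip (fun t => a * f t) := (Lip.const a).mul hf

theorem Lip.neg {f : ℕ → ℚ_[p]} (hf : Lip f) : Lip (fun t => -f t) := by
  have := hf.const_mul (-1)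
  simpa using this

theorem Lip.sub {f g : ℕ → ℚ_[p]} (hf : Lip f) (hg : Lip g) : Lip (fun t => f t - g t) := by
  have := hf.add hg.neg
  simpa [sub_eq_add_neg] using this

theorem Lip.pow {f : ℕ → ℚ_[p]} (hf : Lip f) (n : ℕ) : Lip (fun t => f t ^ n) := by
  induction n with
  | zero => simpa using Lip.const (p := p) 1
  | succ n ih =>
    have := ih.mul hf
    simpa [pow_succ] using this

theorem Lip.prod {ι : Type*} (s : Finset ι) {f : ι → ℕ → ℚ_[p]} (hf : ∀ i ∈ s, Lip (f i)) :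
    Lip (fun t => ∏ i ∈ s, f i t) := by
  classical
  induction s using Finset.induction_on with
  | empty => simpa using Lip.const (p := p) 1
  | insert a s ha ih =>
    have := (hf a (Finset.mem_insert_self _ _)).mul (ih fun i hi => hf i (Finset.mem_insert_of_mem hi))
    simpa [Finset.prod_insert ha] using this

theorem Lip.sum {ι : Type*} (s : Finset ι) {f : ι → ℕ → ℚ_[p]} (hf : ∀ i ∈ s, Lip (f i)) :
    Lip (fun t => ∑ i ∈ s, f i t) := by
  classical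
  induction s using Finset.induction_on with
  | empty => simpa using Lip.const (p := p) 0
  | insert a s ha ih =>
    have := (hf a (Finset.mem_insert_self _ _)).add (ih fun i hi => hf i (Finset.mem_insert_of_mem hi))
    simpa [Finset.sum_insert ha] using this

/-- inverses, away from zero -/
theorem Lip.inv {f : ℕ → ℚ_[p]} (hf : Lip f) {δ : ℝ} (hδ : 0 < δ) (h0 : ∀ t, δ ≤ ‖f t‖) : Lip (fun t => (f t)⁻¹) := by
  obtain ⟨C, hC, h⟩ := hf
  refine ⟨C * (δ⁻¹ * δ⁻¹), by positivity, ?_⟩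
  intro N t
  have n1 : ∀ t, f t ≠ 0 := by
    intro t e
    have := h0 t
    rw [e, norm_zero] at this
    linarith
  have e : (f (t + p ^ N))⁻¹ - (f t)⁻¹ = -((f (t + p ^ N) - f t) * ((f (t + p ^ N))⁻¹ * (f t)⁻¹)) := by
    field_simp [n1]
    ring
  rw [e, norm_neg, norm_mul, norm_mul, norm_inv, norm_inv, mul_right_comm]
  refine mul_le_mul (h N t) ?_ (by positivity) (mul_nonneg hC (pN_pos N).le)
  exact mul_le_mul (inv_anti₀ hδ (h0 _)) (inv_anti₀ hδ (h0 _)) (by positivity) (by positivity)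

theorem Lip.shift {f : ℕ → ℚ_[p]} (hf : Lip f) (j : ℕ) : Lip (fun t => f (t + j)) := by
  obtain ⟨C, hC, h⟩ := hf
  refine ⟨C, hC, ?_⟩
  intro N t
  have := h N (t + j)
  rwa [show t + j + p ^ N = t + p ^ N + j by ring] at this

/-- binomials -/
theorem Lip.choose (K : ℕ) : Lip (fun t : ℕ => (((t + K).choose K : ℕ) : ℚ_[p])) := by
  have hK : ((K.factorial : ℕ) : ℚ_[p]) ≠ 0 := by exact_mod_cast Nat.factorial_ne_zero K
  have e : (fun t : ℕ => (((t + K).choose K : ℕ) : ℚ_[p])) =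
      fun t : ℕ => ((K.factorial : ℕ) : ℚ_[p])⁻¹ * ∏ i ∈ range K, ((t : ℚ_[p]) + ((i + 1 : ℕ) : ℚ_[p])) := by
    funext t
    have h1 : (t + 1).ascFactorial K = K.factorial * (t + K).choose K := Nat.ascFactorial_eq_factorial_mul_choose t K
    have h2 : (t + 1).ascFactorial K = ∏ i ∈ range K, (t + (i + 1)) := by
      rw [Nat.ascFactorial_eq_prod_range]
      apply Finset.prod_congr rfl
      intro i _
      ring
    rw [h2] at h1
    have h3 : ((∏ i ∈ range K, (t + (i + 1)) : ℕ) : ℚ_[p]) = ((K.factorial * (t + K).choose K : ℕ) : ℚ_[p]) := by rw [h1]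
    push_cast at h3 ⊢
    rw [h3]
    field_simp
  rw [e]
  apply Lip.const_mul
  apply Lip.prod
  intro i _
  exact Lip.cast.add (Lip.const _)

theorem norm_ferm_le (h2 : p ≠ 2) {f : ℕ → ℚ_[p]} (hf : UC f) {B : ℝ} (hB : 0 ≤ B) (h : ∀ t, ‖f t‖ ≤ B) : ‖ferm f‖ ≤ B := by
  have h1 := (altS_tendsto h2 hf).norm
  refine le_of_tendsto h1 (Filter.Eventually.of_forall fun N => ?_)
  apply norm_sum_le_of_le _ _ hB
  intro t _
  rw [norm_mul, norm_pow, norm_neg, norm_one, one_pow, one_mul]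
  exact h t

theorem ferm_choose (h2 : p ≠ 2) (K : ℕ) : ferm (fun t : ℕ => (((t + K).choose K : ℕ) : ℚ_[p])) = (1 / 2) ^ K :=
  tendsto_nhds_unique (altS_tendsto h2 (Lip.choose K).uc) (alt_add_tendsto p h2 K)

/-- **F6** -/
theorem norm_ferm_choose_mul (h2 : p ≠ 2) (K : ℕ) {g : ℕ → ℚ_[p]} (hg : Lip g) (h1 : ∀ t, ‖g t - 1‖ ≤ (p : ℝ)⁻¹) :
    ‖ferm (fun t : ℕ => (((t + K).choose K : ℕ) : ℚ_[p]) * g t)‖ = 1 := by
  have e : (fun t : ℕ => (((t + K).choose K : ℕ) : ℚ_[p]) * g t) =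
      fun t : ℕ => (((t + K).choose K : ℕ) : ℚ_[p]) + (((t + K).choose K : ℕ) : ℚ_[p]) * (g t - 1) := by
    funext t
    ring
  have hL : Lip (fun t : ℕ => (((t + K).choose K : ℕ) : ℚ_[p]) * (g t - 1)) := (Lip.choose K).mul (hg.sub (Lip.const 1))
  rw [e, ferm_add h2 (Lip.choose K).uc hL.uc, ferm_choose h2]
  have hp1 : (1 : ℝ) < p := by exact_mod_cast hp.out.one_lt
  have hlt : ‖ferm (fun t : ℕ => (((t + K).choose K : ℕ) : ℚ_[p]) * (g t - 1))‖ < 1 := by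
    refine lt_of_le_of_lt (norm_ferm_le h2 hL.uc (B := (p : ℝ)⁻¹) (by positivity) ?_) (inv_lt_one_of_one_lt₀ hp1)
    intro t
    rw [norm_mul]
    exact (mul_le_of_le_one_left (norm_nonneg _) (norm_natCast_le_one _)).trans (h1 t)
  have hone : ‖((1 : ℚ_[p]) / 2) ^ K‖ = 1 := by
    rw [norm_pow, norm_div, norm_one, two_norm h2]
    simp
  have := IsUltrametricDist.norm_add_eq_max_of_norm_ne_norm (x := ((1 : ℚ_[p]) / 2) ^ K)
    (y := ferm (fun t : ℕ => (((t + K).choose K : ℕ) : ℚ_[p]) * (g t - 1))) (by rw [hone]; exact hlt.ne')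
  rw [this, hone]
  exact max_eq_left hlt.le

end Pool.Agent.Work.MP_03df5c_h61
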