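import Pool.Agent.Work.MP_03df5c_h61.Ferm4

open Filter Topology Finset

namespace Pool.Agent.Work.MP_03df5c_h61

open Pool.Agent.Work.MP_03df5c_h91

variable {p : ℕ} [hp : Fact p.Prime]

/-- `∫ f(t+j) = (-1)^j ∫ f + 2 ∑_{l<j} (-1)^(j-1-l) f(l)` -/
theorem ferm_shift_n (h2 : p ≠ 2) {f : ℕ → ℚ_[p]} (hf : Lip f) (j : ℕ) :
    ferm (fun t => f (t + j)) = (-1) ^ j * ferm f + 2 * ∑ l ∈ range j, (-1) ^ (j - 1 - l) * f l := by
  induction j with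
  | zero => simp
  | succ j ih =>
    have h1 := ferm_shift h2 (f := fun t => f (t + j)) (hf.shift j).uc (by
      have := (hf.shift (j + 1)).uc
      simpa [add_assoc, add_comm 1 j] using this)
    have e1 : (fun t => (fun t => f (t + j)) (t + 1)) = fun t => f (t + (j + 1)) := by
      funext t
      change f (t + 1 + j) = _
      congr 1
      ring
    rw [e1, ih, zero_add] at h1
    rw [h1, Finset.sum_range_succ]
    have e2 : ∑ l ∈ range j, (-1 : ℚ_[p]) ^ (j + 1 - 1 - l) * f l = -∑ l ∈ range j, (-1 : ℚ_[p]) ^ (j - 1 - l) * f l := by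
      rw [← Finset.sum_neg_distrib]
      apply Finset.sum_congr rfl
      intro l hl
      rw [Finset.mem_range] at hl
      rw [show j + 1 - 1 - l = (j - 1 - l) + 1 by omega, pow_succ]
      ring
    rw [e2, show j + 1 - 1 - j = 0 by omega]
    ring

theorem norm_shift {a r : ℕ} (ha : ¬ p ∣ a) (hr : 1 ≤ r) (t : ℕ) :
    ‖(a : ℚ_[p]) / (p : ℚ_[p]) ^ r + (t : ℚ_[p])‖ = (p : ℝ) ^ r := by
  have hp0 : (p : ℚ_[p]) ≠ 0 := by exact_mod_cast hp.out.ne_zero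
  have e : (a : ℚ_[p]) / (p : ℚ_[p]) ^ r + (t : ℚ_[p]) = ((p : ℚ_[p]) ^ r)⁻¹ * ((a + p ^ r * t : ℕ) : ℚ_[p]) := by
    push_cast
    field_simp
  have h1 : ¬ p ∣ a + p ^ r * t := by
    intro h
    apply ha
    have : p ∣ p ^ r * t := Dvd.dvd.mul_right (dvd_pow_self p (by omega)) t
    exact (Nat.dvd_add_left this).1 h
  rw [e, norm_mul, norm_nat_eq_one h1, mul_one, norm_inv, norm_pow, Padic.norm_p, inv_pow, inv_inv]

theorem Lip.Ei {a r : ℕ} (ha : ¬ p ∣ a) (hr : 1 ≤ r) (i : ℕ) :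
    Lip (fun t : ℕ => (((a : ℚ_[p]) / (p : ℚ_[p]) ^ r + (t : ℚ_[p])) ^ i)⁻¹) := by
  have hpp : (0 : ℝ) < p := by exact_mod_cast hp.out.pos
  apply Lip.inv (δ := ((p : ℝ) ^ r) ^ i) (((Lip.const _).add Lip.cast).pow i) (by positivity)
  intro t
  rw [norm_pow, norm_shift ha hr]

/-- `E_i(a)` -/
noncomputable def Ei (p : ℕ) [Fact p.Prime] (r i a : ℕ) : ℚ_[p] :=
  ferm (fun t : ℕ => (((a : ℚ_[p]) / (p : ℚ_[p]) ^ r + (t : ℚ_[p])) ^ i)⁻¹)

/-- **E2** -/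
theorem Ei_shift (h2 : p ≠ 2) {a r : ℕ} (ha : ¬ p ∣ a) (hr : 1 ≤ r) (i j : ℕ) :
    ferm (fun t : ℕ => (((a : ℚ_[p]) / (p : ℚ_[p]) ^ r + (t : ℚ_[p]) + (j : ℚ_[p])) ^ i)⁻¹) = (-1) ^ j * Ei p r i a +
      2 * ∑ l ∈ range j, (-1) ^ (j - 1 - l) * (((a : ℚ_[p]) / (p : ℚ_[p]) ^ r + (l : ℚ_[p])) ^ i)⁻¹ := by
  rw [Ei, ← ferm_shift_n h2 (Lip.Ei ha hr i) j]
  congr 1
  funext t
  push_cast
  ring_nf

/-- `J_i` -/
noncomputable def JJ (p : ℕ) [Fact p.Prime] (i : ℕ) : ℚ_[p] := limUnder atTop (altU p i)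

theorem altU_split {r : ℕ} (h2 : p ≠ 2) (hr : 1 ≤ r) (i N : ℕ) :
    altU p i (N + r) = ∑ a ∈ UU p r, (-1 : ℚ_[p]) ^ a * ((((p : ℚ_[p]) ^ r) ^ i)⁻¹ *
      altS (fun t : ℕ => (((a : ℚ_[p]) / (p : ℚ_[p]) ^ r + (t : ℚ_[p])) ^ i)⁻¹) N) := by
  have hp0 : (p : ℚ_[p]) ≠ 0 := by exact_mod_cast hp.out.ne_zero
  have hodd : Odd (p ^ r) := (hp.out.odd_of_ne_two h2).pow
  set F : ℕ → ℚ_[p] := fun n => if ¬ p ∣ n then (-1 : ℚ_[p]) ^ n * ((n : ℚ_[p]) ^ i)⁻¹ else 0 with hF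
  have e1 : altU p i (N + r) = ∑ n ∈ range (p ^ N * p ^ r), F n := by
    unfold altU UU
    rw [Finset.sum_filter, pow_add]
  rw [e1, sum_blocks (p ^ r) F (p ^ N), UU, Finset.sum_filter]
  apply Finset.sum_congr rfl
  intro a _
  by_cases ha : ¬ p ∣ a
  · rw [if_pos ha]
    unfold altS
    rw [Finset.mul_sum, Finset.mul_sum]
    apply Finset.sum_congr rfl
    intro t _
    have h1 : ¬ p ∣ a + t * p ^ r := by
      intro h
      apply ha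
      have : p ∣ t * p ^ r := Dvd.dvd.mul_left (dvd_pow_self p (by omega)) t
      exact (Nat.dvd_add_left this).1 h
    have h3 : (((a : ℚ_[p]) / (p : ℚ_[p]) ^ r + (t : ℚ_[p])) ^ i)⁻¹ = ((p : ℚ_[p]) ^ r) ^ i * (((a : ℚ_[p]) + t * (p : ℚ_[p]) ^ r) ^ i)⁻¹ := by
      have e : (a : ℚ_[p]) / (p : ℚ_[p]) ^ r + (t : ℚ_[p]) = ((p : ℚ_[p]) ^ r)⁻¹ * ((a : ℚ_[p]) + t * (p : ℚ_[p]) ^ r) := by
        field_simp
      rw [e, mul_pow, mul_inv, inv_pow, inv_inv]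
    have h4 : ((p : ℚ_[p]) ^ r) ^ i ≠ 0 := pow_ne_zero _ (pow_ne_zero _ hp0)
    rw [hF]
    simp only [if_pos h1]
    rw [pow_add, mul_comm t, pow_mul (-1 : ℚ_[p]) (p ^ r) t, hodd.neg_one_pow, h3]
    push_cast
    field_simp
  · rw [if_neg ha]
    apply Finset.sum_eq_zero
    intro t _
    rw [hF]
    have h1 : p ∣ a + t * p ^ r := by
      rw [not_not] at ha
      exact Dvd.dvd.add ha (Dvd.dvd.mul_left (dvd_pow_self p (by omega)) t)
    simp [h1]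

theorem tendsto_altU_sum (h2 : p ≠ 2) {r : ℕ} (hr : 1 ≤ r) (i : ℕ) :
    Tendsto (altU p i) atTop (𝓝 (∑ a ∈ UU p r, (-1 : ℚ_[p]) ^ a * ((((p : ℚ_[p]) ^ r) ^ i)⁻¹ * Ei p r i a))) := by
  rw [← tendsto_add_atTop_iff_nat r]
  have : ∀ a ∈ UU p r, Tendsto (fun N => (-1 : ℚ_[p]) ^ a * ((((p : ℚ_[p]) ^ r) ^ i)⁻¹ *
      altS (fun t : ℕ => (((a : ℚ_[p]) / (p : ℚ_[p]) ^ r + (t : ℚ_[p])) ^ i)⁻¹) N)) atTop
      (𝓝 ((-1 : ℚ_[p]) ^ a * ((((p : ℚ_[p]) ^ r) ^ i)⁻¹ * Ei p r i a))) := by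
    intro a ha
    have ha' : ¬ p ∣ a := (Finset.mem_filter.1 ha).2
    exact ((altS_tendsto h2 (Lip.Ei ha' hr i).uc).const_mul _).const_mul _
  refine (tendsto_finsetSum _ this).congr fun N => ?_
  exact (altU_split h2 hr i N).symm

theorem tendsto_JJ (h2 : p ≠ 2) (i : ℕ) : Tendsto (altU p i) atTop (𝓝 (JJ p i)) :=
  tendsto_nhds_limUnder ⟨_, tendsto_altU_sum h2 le_rfl i⟩

/-- **E3** -/
theorem sum_Ei (h2 : p ≠ 2) {r : ℕ} (hr : 1 ≤ r) (i : ℕ) :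
    ∑ a ∈ UU p r, (-1 : ℚ_[p]) ^ a * Ei p r i a = (p : ℚ_[p]) ^ (r * i) * JJ p i := by
  have hp0 : (p : ℚ_[p]) ≠ 0 := by exact_mod_cast hp.out.ne_zero
  have h1 := tendsto_nhds_unique (tendsto_JJ h2 i) (tendsto_altU_sum h2 hr i)
  rw [h1, Finset.mul_sum]
  apply Finset.sum_congr rfl
  intro a _
  rw [pow_mul]
  have h4 : ((p : ℚ_[p]) ^ r) ^ i ≠ 0 := pow_ne_zero _ (pow_ne_zero _ hp0)
  field_simp

/-- **E5** -/
theorem JJ_eq (h2 : p ≠ 2) {k : ℕ} (hk : 2 ≤ k) :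
    JJ p k = 2 * (((2 : ℚ_[p]) ^ (k - 1))⁻¹ - 1) * kubotaLeopoldt p k :=
  tendsto_nhds_unique (tendsto_JJ h2 k) (tendsto_altU h2 hk)

/-- **E4** -/
theorem JJ_even (h2 : p ≠ 2) {i : ℕ} (hi : Even i) : JJ p i = 0 := by
  have key : ∀ N, ‖altU p i N + altU p i N‖ ≤ (p : ℝ) ^ (-(N : ℤ)) := by
    intro N
    rcases Nat.eq_zero_or_pos N with rfl | hN
    · simp [altU, UU, Finset.filter_singleton]
    have hodd : Odd (p ^ N) := (hp.out.odd_of_ne_two h2).pow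
    have hpd : p ∣ p ^ N := dvd_pow_self p (by omega)
    have e1 : altU p i N = ∑ a ∈ UU p N, (-1 : ℚ_[p]) ^ (p ^ N - a) * (((p ^ N - a : ℕ) : ℚ_[p]) ^ i)⁻¹ := by
      unfold altU
      symm
      apply Finset.sum_nbij' (fun a => p ^ N - a) (fun a => p ^ N - a)
      · intro a ha
        simp only [UU, mem_filter, mem_range] at ha ⊢
        refine ⟨?_, fun h => ha.2 ?_⟩
        · have : a ≠ 0 := by
            rintro rfl
            exact ha.2 (dvd_zero p)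
          omega
        · have := (Nat.dvd_sub_iff_right ha.1.le hpd).1 h
          exact this
      · intro a ha
        simp only [UU, mem_filter, mem_range] at ha ⊢
        refine ⟨?_, fun h => ha.2 ?_⟩
        · have : a ≠ 0 := by
            rintro rfl
            exact ha.2 (dvd_zero p)
          omega
        · have := (Nat.dvd_sub_iff_right ha.1.le hpd).1 h
          exact this
      · intro a ha
        simp only [UU, mem_filter, mem_range] at ha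
        omega
      · intro a ha
        simp only [UU, mem_filter, mem_range] at ha
        omega
      · intro a _
        rfl
    conv_lhs =>
      arg 1
      arg 1
      rw [e1]
    unfold altU
    rw [← Finset.sum_add_distrib]
    refine norm_sum_le_of_le _ _ (pN_pos N).le ?_
    intro a ha
    simp only [UU, mem_filter, mem_range] at ha
    have hs : (-1 : ℚ_[p]) ^ (p ^ N - a) = -(-1) ^ a := by
      have h3 : (-1 : ℚ_[p]) ^ (p ^ N - a) * (-1) ^ a = -1 := by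
        rw [← pow_add, Nat.sub_add_cancel ha.1.le, hodd.neg_one_pow]
      have h4 : (-1 : ℚ_[p]) ^ a * (-1) ^ a = 1 := by rw [← pow_add, ← two_mul, pow_mul]; simp
      calc (-1 : ℚ_[p]) ^ (p ^ N - a) = (-1 : ℚ_[p]) ^ (p ^ N - a) * ((-1) ^ a * (-1) ^ a) := by rw [h4, mul_one]
        _ = ((-1 : ℚ_[p]) ^ (p ^ N - a) * (-1) ^ a) * (-1) ^ a := by ring
        _ = _ := by rw [h3]; ring
    have hna : ‖(-(a : ℚ_[p]))‖ = 1 := by rw [norm_neg]; exact norm_nat_eq_one ha.2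
    have hnb : ‖((p ^ N - a : ℕ) : ℚ_[p])‖ = 1 := by
      apply norm_nat_eq_one
      intro h
      exact ha.2 ((Nat.dvd_sub_iff_right ha.1.le hpd).1 h)
    have hev : ((-(a : ℚ_[p])) ^ i)⁻¹ = ((a : ℚ_[p]) ^ i)⁻¹ := by rw [hi.neg_pow]
    have e2 : (-1 : ℚ_[p]) ^ (p ^ N - a) * (((p ^ N - a : ℕ) : ℚ_[p]) ^ i)⁻¹ + (-1 : ℚ_[p]) ^ a * ((a : ℚ_[p]) ^ i)⁻¹ =
        -((-1 : ℚ_[p]) ^ a * ((((p ^ N - a : ℕ) : ℚ_[p]) ^ i)⁻¹ - ((-(a : ℚ_[p])) ^ i)⁻¹)) := by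
      rw [hs, hev]
      ring
    rw [e2, norm_neg, norm_mul, norm_pow, norm_neg, norm_one, one_pow, one_mul]
    refine (norm_inv_pow_sub_le hnb hna i).trans ?_
    rw [Nat.cast_sub ha.1.le, sub_neg_eq_add, sub_add_cancel]
    push_cast
    rw [Padic.norm_p_pow]
  have h1 := (tendsto_JJ h2 i).add (tendsto_JJ h2 i)
  have h3 : Tendsto (fun N => altU p i N + altU p i N) atTop (𝓝 0) := by
    rw [tendsto_zero_iff_norm_tendsto_zero]
    exact squeeze_zero (fun _ => norm_nonneg _) key (tendsto_pN (p := p))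
  have h4 := tendsto_nhds_unique h1 h3
  have h5 : (2 : ℚ_[p]) * JJ p i = 0 := by rw [two_mul]; exact h4
  exact (mul_eq_zero.1 h5).resolve_left two_ne_zero

end Pool.Agent.Work.MP_03df5c_h61
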